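import Pool.Agent.Lib.MP_14338b_nt.Tree

set_option autoImplicit false

open Finset Real

namespace Pool.Agent.Lib.MP_14338b_nt

theorem geom_le {t : ℝ} (h0 : 0 < t) (h1 : t < 1) (N : ℕ) :
    ∑ e ∈ Icc 1 N, t ^ e ≤ 1 / (t⁻¹ - 1) := by
  have h : ∑ e ∈ Icc 1 N, t ^ e = (t - t ^ (N + 1)) / (1 - t) := by
    rw [eq_div_iff (by linarith)]
    induction N with
    | zero => simp
    | succ N ih => rw [sum_Icc_succ_top (by omega), add_mul, ih]; ring
  have h2 : 1 / (t⁻¹ - 1) = t / (1 - t) := by
    have : 1 - t ≠ 0 := by linarith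
    field_simp
  rw [h, h2]
  gcongr
  linarith [pow_pos h0 (N + 1)]

theorem sum_exponent {y : ℝ} (hy : 1 ≤ log y) (hy0 : 1 < y) :
    ∑ p ∈ (range (⌊y⌋₊ + 1)).filter Nat.Prime, (if √y ≤ (p : ℝ) then 2 else 3 * log y) ≤
      134 * (y / log y) := by
  have hl : 0 < log y := by linarith
  have hs1 : 1 ≤ √y := Real.one_le_sqrt.2 hy0.le
  have hss : √y * √y = y := Real.mul_self_sqrt (by linarith)
  have h1 : log y * √y ≤ 16 * (y / log y) := by
    have e1 : log y = 4 * log √√y := by
      rw [Real.log_sqrt (by linarith), Real.log_sqrt (by linarith)]; ring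
    have e2 : log √√y ≤ √√y := Real.log_le_self (Real.sqrt_nonneg _)
    have e3 : √√y * √√y = √y := Real.mul_self_sqrt (by linarith)
    have e4 : log y * log y ≤ 16 * √y := by nlinarith
    rw [← mul_div_assoc, le_div_iff₀ hl]
    nlinarith
  have h2 : (((range (⌊y⌋₊ + 1)).filter Nat.Prime).card : ℝ) ≤ 19 * (y / log y) := by
    rw [← Nat.count_eq_card_filter_range]
    have := Chebyshev.pi_le_log4_mul_div hy0
    rw [Real.log_sqrt (by linarith)] at this
    have e1 : log 4 * y / (log y / 2) = 2 * log 4 * (y / log y) := by field_simp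
    have e2 : log 4 < 3 / 2 := by
      rw [show (4 : ℝ) = 2 ^ 2 by norm_num, Real.log_pow]
      have := Real.log_two_lt_d9
      push_cast
      linarith
    have e3 : 0 ≤ y / log y := by positivity
    rw [e1] at this
    change ((Nat.primeCounting ⌊y⌋₊ : ℕ) : ℝ) ≤ _
    nlinarith
  have h3 : ((((range (⌊y⌋₊ + 1)).filter Nat.Prime).filter
      fun p : ℕ ↦ ¬ √y ≤ (p : ℝ)).card : ℝ) ≤ 2 * √y := by
    have : (((range (⌊y⌋₊ + 1)).filter Nat.Prime).filter fun p : ℕ ↦ ¬ √y ≤ (p : ℝ)) ⊆
        range ⌈√y⌉₊ := fun p hp ↦ mem_range.2 (Nat.lt_ceil.2 (not_le.1 (mem_filter.1 hp).2))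
    have h := card_le_card this
    rw [card_range] at h
    have h' := Nat.ceil_lt_add_one (Real.sqrt_nonneg y)
    have h'' := (Nat.cast_le (α := ℝ)).2 h
    linarith
  rw [sum_ite, sum_const, sum_const, nsmul_eq_mul, nsmul_eq_mul]
  have h4 := (Nat.cast_le (α := ℝ)).2 (card_filter_le ((range (⌊y⌋₊ + 1)).filter Nat.Prime)
    fun p : ℕ ↦ √y ≤ (p : ℝ))
  nlinarith

theorem weighted_rpow {y : ℝ} (hy : 1 ≤ log y) (hy0 : 1 < y) (A : Finset ℕ)
    (hA : ∀ n ∈ A, 0 < n ∧ usigma (usigma n) = 2 * n) :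
    ∑ n ∈ A, ((n * usigma n : ℕ) : ℝ) ^ (-(log 2 / log y)) ≤ 2 * exp (134 * (y / log y)) ^ 2 := by
  have hl : 0 < log y := by linarith
  have hl2 := Real.log_two_gt_d9
  set s := log 2 / log y with hs
  have hs0 : 0 < s := by positivity
  set P := (range (⌊y⌋₊ + 1)).filter Nat.Prime with hP
  set h : ℕ → ℝ := fun p ↦ if √y ≤ (p : ℝ) then 2 else 3 * log y with hh
  have h0 : ∀ p, 0 ≤ h p := fun p ↦ by
    simp only [hh]
    split_ifs <;> linarith
  refine (weighted (w := fun n ↦ (n : ℝ) ^ (-s)) (G := fun S ↦ exp (∑ p ∈ P \ S, h p))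
    (fun a b ↦ by push_cast; exact Real.mul_rpow a.cast_nonneg b.cast_nonneg) (by simp)
    (fun a ↦ by positivity) (fun S ↦ Real.one_le_exp (sum_nonneg fun p _ ↦ h0 p))
    (fun r N S hr hrS ↦ ?_) A hA).trans ?_
  · have hr2 : (2 : ℝ) ≤ r := by exact_mod_cast hr.two_le
    have hlr : log 2 ≤ log r := Real.log_le_log (by norm_num) hr2
    have ht : ((r : ℝ) ^ (-s))⁻¹ = exp (log r * s) := by
      rw [Real.rpow_neg (by linarith), inv_inv, Real.rpow_def_of_pos (by linarith)]
    have hg := geom_le (t := (r : ℝ) ^ (-s)) (by positivity)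
      (Real.rpow_lt_one_of_one_lt_of_neg (by linarith) (by linarith)) N
    rw [ht] at hg
    by_cases hrP : r ∈ P
    · have e : P \ S = insert r (P \ insert r S) := by
        ext p
        simp only [mem_sdiff, mem_insert, not_or]
        constructor
        · rintro ⟨h1, h2⟩
          by_cases hp : p = r
          · exact Or.inl hp
          · exact Or.inr ⟨h1, hp, h2⟩
        · rintro (rfl | ⟨h1, -, h2⟩)
          · exact ⟨hrP, hrS⟩
          · exact ⟨h1, h2⟩
      rw [e, sum_insert (by simp), Real.exp_add]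
      refine mul_le_mul_of_nonneg_right (hg.trans ?_) (Real.exp_pos _).le
      have k1 := Real.add_one_le_exp (log r * s)
      have k2 : 0 < log r * s := mul_pos (by linarith) hs0
      have k3 : 1 / (exp (log r * s) - 1) ≤ 1 / (log r * s) := by
        gcongr
        linarith
      refine k3.trans ?_
      have k4 := Real.add_one_le_exp (h r)
      refine le_trans ?_ k4
      rw [div_le_iff₀ k2, hs, ← mul_div_assoc, ← mul_div_assoc, le_div_iff₀ hl]
      simp only [hh]
      split_ifs with hc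
      · have := Real.log_le_log (Real.sqrt_pos.2 (by linarith)) hc
        rw [Real.log_sqrt (by linarith)] at this
        nlinarith
      · have : 0.48 ≤ log r * log 2 := by nlinarith
        nlinarith
    · have e : P \ insert r S = P \ S := by
        ext p
        simp only [mem_sdiff, mem_insert, not_or]
        exact ⟨fun h ↦ ⟨h.1, h.2.2⟩, fun h ↦ ⟨h.1, fun e ↦ hrP (e ▸ h.1), h.2⟩⟩
      rw [e]
      refine mul_le_of_le_one_left (Real.exp_pos _).le (hg.trans ?_)
      have k1 : y ≤ r := by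
        by_contra hc
        exact hrP (mem_filter.2 ⟨mem_range.2 (Nat.lt_succ_of_le
          (Nat.le_floor (not_le.1 hc).le)), hr⟩)
      have k2 : log 2 ≤ log r * s := by
        rw [hs, ← mul_div_assoc, le_div_iff₀ hl]
        have := Real.log_le_log (by linarith) k1
        nlinarith
      have k3 := Real.exp_le_exp.2 k2
      rw [Real.exp_log (by norm_num)] at k3
      rw [div_le_one (by linarith)]
      linarith
  · simp only [sdiff_empty]
    gcongr
    exact sum_exponent hy hy0

theorem count_le (x : ℕ) (hx : 3 ≤ x) :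
    (((Icc 1 x).filter fun n ↦ usigma (usigma n) = 2 * n).card : ℝ) ≤
      exp (272 * log x / log (log x)) := by
  have hx3 : (3 : ℝ) ≤ x := by exact_mod_cast hx
  have hy0 : 1 < log x := by
    rw [Real.lt_log_iff_exp_lt (by linarith)]
    have := Real.exp_one_lt_d9
    linarith
  set y := log x with hy
  have hl : 0 < log y := Real.log_pos hy0
  rw [mul_div_assoc]
  rcases le_or_gt 1 (log y) with h1 | h1
  · have hw := weighted_rpow h1 hy0 ((Icc 1 x).filter fun n ↦ usigma (usigma n) = 2 * n)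
      fun n hn ↦ ⟨(mem_Icc.1 (mem_filter.1 hn).1).1, (mem_filter.1 hn).2⟩
    have hl2 := Real.log_two_lt_d9
    have hl3 := Real.log_two_gt_d9
    have hq : 1 ≤ y / log y := by
      rw [le_div_iff₀ hl]
      linarith [Real.log_le_self (show 0 ≤ y by linarith)]
    have h2 : ∀ n ∈ (Icc 1 x).filter fun n ↦ usigma (usigma n) = 2 * n,
        exp (-(3 * (y / log y))) ≤ ((n * usigma n : ℕ) : ℝ) ^ (-(log 2 / log y)) := by
      intro n hn
      obtain ⟨hn, h2⟩ := mem_filter.1 hn
      obtain ⟨n1, n2⟩ := mem_Icc.1 hn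
      have l1 := le_usigma n1
      have l2 := le_usigma (n1.trans l1)
      have l3 : n * usigma n ≤ x ^ 3 := by nlinarith [Nat.mul_le_mul n2 n2]
      have l4 : (0 : ℝ) < (n * usigma n : ℕ) := by exact_mod_cast mul_pos n1 (n1.trans l1)
      have l5 : log (n * usigma n : ℕ) ≤ 3 * y := by
        have := Real.log_le_log l4 ((Nat.cast_le (α := ℝ)).2 l3)
        rwa [Nat.cast_pow, Real.log_pow] at this
      have l6 := Real.log_natCast_nonneg (n * usigma n)
      rw [Real.rpow_def_of_pos l4, Real.exp_le_exp, mul_neg, neg_le_neg_iff, ← mul_div_assoc,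
        ← mul_div_assoc]
      gcongr ?_ / _
      nlinarith
    have h3 := (card_nsmul_le_sum _ _ _ h2).trans hw
    rw [nsmul_eq_mul, Real.exp_neg, mul_inv_le_iff₀ (Real.exp_pos _)] at h3
    refine h3.trans ?_
    have h4 : 2 ≤ exp (y / log y) := by linarith [Real.add_one_le_exp (y / log y)]
    rw [show 272 * (y / log y) = y / log y + 2 * (134 * (y / log y)) + 3 * (y / log y) by ring,
      Real.exp_add, Real.exp_add, show (2 : ℝ) * (134 * (y / log y)) =
        (2 : ℕ) * (134 * (y / log y)) by norm_num, Real.exp_nat_mul]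
    gcongr
  · have h2 := (Nat.cast_le (α := ℝ)).2
      (card_filter_le (Icc 1 x) fun n ↦ usigma (usigma n) = 2 * n)
    rw [Nat.card_Icc, Nat.add_sub_cancel] at h2
    refine h2.trans ?_
    rw [← Real.exp_log (show (0 : ℝ) < x by linarith), ← hy, Real.exp_le_exp, ← mul_div_assoc,
      le_div_iff₀ hl]
    nlinarith

end Pool.Agent.Lib.MP_14338b_nt
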