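import Mathlib

set_option autoImplicit false

namespace Pool.Agent.Lib.MP_14338b_nt

/-- the sum of the unitary divisors of `n` -/
def usigma (n : ℕ) : ℕ := ∑ d ∈ n.divisors with Nat.Coprime d (n / d), d

end Pool.Agent.Lib.MP_14338b_nt
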