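import Pool.Agent.Lib.MP_14338b_nt.Def

set_option autoImplicit false

open Finset

namespace Pool.Agent.Lib.MP_14338b_nt

theorem mem_ud {n d : ℕ} : d ∈ (n.divisors.filter fun d ↦ Nat.Coprime d (n / d)) ↔
    n ≠ 0 ∧ ∃ k, n = d * k ∧ Nat.Coprime d k := by
  simp only [mem_filter, Nat.mem_divisors]
  constructor
  · rintro ⟨⟨⟨k, rfl⟩, h0⟩, h⟩
    have hd : 0 < d := Nat.pos_of_ne_zero fun h ↦ h0 (by simp [h])
    rw [Nat.mul_div_cancel_left _ hd] at h
    exact ⟨h0, k, rfl, h⟩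
  · rintro ⟨h0, k, rfl, h⟩
    have hd : 0 < d := Nat.pos_of_ne_zero fun h ↦ h0 (by simp [h])
    rw [Nat.mul_div_cancel_left _ hd]
    exact ⟨⟨dvd_mul_right _ _, h0⟩, h⟩

theorem usigma_pow_mul {r e v : ℕ} (hr : r.Prime) (he : 0 < e) (hv : ¬ r ∣ v) :
    usigma (r ^ e * v) = (r ^ e + 1) * usigma v := by
  have hv0 : v ≠ 0 := fun h ↦ hv (by simp [h])
  have hre : r ^ e ≠ 0 := pow_ne_zero _ hr.ne_zero
  have hU : ((r ^ e * v).divisors.filter fun d ↦ Nat.Coprime d (r ^ e * v / d)) =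
      ((v.divisors.filter fun d ↦ Nat.Coprime d (v / d)).image (r ^ e * ·)) ∪
        (v.divisors.filter fun d ↦ Nat.Coprime d (v / d)) := by
    ext d
    simp only [mem_union, mem_image, mem_ud]
    constructor
    · rintro ⟨-, k, hk, hc⟩
      by_cases hd : r ∣ d
      · have hrk : ¬ r ∣ k := fun h ↦ hr.one_lt.ne' (Nat.eq_one_of_dvd_coprimes hc hd h)
        have : r ^ e ∣ d := (((Nat.Prime.coprime_iff_not_dvd hr).2 hrk).pow_left e).dvd_of_dvd_mul_right
          (hk ▸ dvd_mul_right _ _)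
        obtain ⟨d', rfl⟩ := this
        refine Or.inl ⟨d', ⟨hv0, k, ?_, Nat.Coprime.coprime_mul_left hc⟩, rfl⟩
        rw [mul_assoc] at hk
        exact Nat.eq_of_mul_eq_mul_left (Nat.pos_of_ne_zero hre) hk
      · have : r ^ e ∣ k := (((Nat.Prime.coprime_iff_not_dvd hr).2 hd).pow_left e).dvd_of_dvd_mul_left
          (hk ▸ dvd_mul_right _ _)
        obtain ⟨k', rfl⟩ := this
        refine Or.inr ⟨hv0, k', ?_, Nat.Coprime.coprime_mul_left_right hc⟩
        rw [mul_left_comm] at hk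
        exact Nat.eq_of_mul_eq_mul_left (Nat.pos_of_ne_zero hre) hk
    · rintro (⟨d', ⟨-, k, hk, hc⟩, rfl⟩ | ⟨-, k, hk, hc⟩)
      · refine ⟨mul_ne_zero hre hv0, k, by rw [hk, mul_assoc], Nat.Coprime.mul_left ?_ hc⟩
        exact ((Nat.Prime.coprime_iff_not_dvd hr).2 fun h ↦ hv (hk ▸ h.mul_left _)).pow_left e
      · refine ⟨mul_ne_zero hre hv0, r ^ e * k, by rw [hk, mul_left_comm],
          Nat.Coprime.mul_right ?_ hc⟩
        exact (((Nat.Prime.coprime_iff_not_dvd hr).2 fun h ↦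
          hv (hk ▸ h.mul_right _)).pow_left e).symm
  unfold usigma
  rw [hU, sum_union, sum_image, ← mul_sum]
  · ring
  · intro x _ y _ h
    exact Nat.eq_of_mul_eq_mul_left (Nat.pos_of_ne_zero hre) h
  · rw [disjoint_left]
    intro d h1 h2
    obtain ⟨d', -, rfl⟩ := mem_image.1 h1
    obtain ⟨-, k, hk, -⟩ := mem_ud.1 h2
    exact hv (hk ▸ ((dvd_pow_self r he.ne').mul_right _).mul_right _)

theorem le_usigma {n : ℕ} (hn : 0 < n) : n ≤ usigma n :=
  single_le_sum (f := fun d ↦ d) (fun _ _ ↦ Nat.zero_le _)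
    (mem_ud.2 ⟨hn.ne', 1, by simp, by simp⟩)

theorem lt_usigma {n : ℕ} (hn : 1 < n) : n < usigma n := by
  have h : ({1, n} : Finset ℕ) ⊆ n.divisors.filter fun d ↦ Nat.Coprime d (n / d) := by
    intro d hd
    rcases mem_insert.1 hd with rfl | hd
    · exact mem_ud.2 ⟨by omega, n, by simp, by simp⟩
    · rw [mem_singleton.1 hd]
      exact mem_ud.2 ⟨by omega, 1, by simp, by simp⟩
  have := sum_le_sum_of_subset (f := fun d ↦ d) h
  rw [sum_pair hn.ne] at this
  exact lt_of_lt_of_le (by omega) this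

theorem two_dvd_usigma {n : ℕ} (hn : 1 < n) (h2 : ¬ 2 ∣ n) : 2 ∣ usigma n := by
  have hr := Nat.minFac_prime hn.ne'
  obtain ⟨e, v, hv, he⟩ := Nat.exists_eq_pow_mul_and_not_dvd (n := n) (by omega) _ hr.ne_one
  have he0 : 0 < e := Nat.pos_of_ne_zero fun h ↦ hv (by
    rw [h, pow_zero, one_mul] at he
    exact he ▸ Nat.minFac_dvd n)
  have hodd : Odd n.minFac := hr.odd_of_ne_two fun h ↦ h2 (h ▸ Nat.minFac_dvd n)
  rw [he, usigma_pow_mul hr he0 hv]
  exact (hodd.pow.add_one.two_dvd).mul_right _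

/-- the remaining parts `x.1`, `x.2` of a pair -/
def Ok (a b c d : ℕ) (S T : Finset ℕ) (x : ℕ × ℕ) : Prop :=
  0 < x.1 ∧ 0 < x.2 ∧ a * usigma x.1 = b * x.2 ∧ c * usigma x.2 = d * x.1 ∧
    (∀ p ∈ S, ¬ p ∣ x.1) ∧ ∀ p ∈ T, ¬ p ∣ x.2

theorem Ok.swap {a b c d : ℕ} {S T : Finset ℕ} {x : ℕ × ℕ} (h : Ok a b c d S T x) :
    Ok c d a b T S x.swap :=
  ⟨h.2.1, h.1, h.2.2.2.1, h.2.2.1, h.2.2.2.2.2, h.2.2.2.2.1⟩

section
variable (w : ℕ → ℝ) (G : Finset ℕ → ℝ)

/-- the weighted count of pairs below `N` -/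
def Bd (N : ℕ) : Prop := ∀ (a b c d : ℕ) (S T : Finset ℕ) (F : Finset (ℕ × ℕ)), 0 < a → 0 < c →
  b * d < 2 * (a * c) → (∀ x ∈ F, Ok a b c d S T x ∧ x.1 * x.2 < N) →
    ∑ x ∈ F, w (x.1 * x.2) ≤ G S * G T

variable {w G} (hw : ∀ a b, w (a * b) = w a * w b) (hw1 : w 1 = 1) (hw0 : ∀ a, 0 ≤ w a)
  (hG : ∀ S, 1 ≤ G S)
  (hs : ∀ (r N : ℕ) (S : Finset ℕ), r.Prime → r ∉ S →
    (∑ e ∈ Icc 1 N, w r ^ e) * G (insert r S) ≤ G S)

include hw hw1 hw0 hG hs

theorem step {N : ℕ} (ih : Bd w G N) {a b c d r : ℕ} {S T : Finset ℕ} {F : Finset (ℕ × ℕ)}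
    (ha : 0 < a) (hc : 0 < c) (h : b * d ≤ 2 * (a * c)) (hr : r.Prime)
    (hF : ∀ x ∈ F, Ok a b c d S T x ∧ x.1 * x.2 < N + 1 ∧ r ∣ x.2) :
    ∑ x ∈ F, w (x.1 * x.2) ≤ G S * G T := by
  have hpow : ∀ e, w (r ^ e) = w r ^ e := fun e ↦ by
    induction e with
    | zero => simpa using hw1
    | succ e ih => rw [pow_succ, hw, ih, pow_succ]
  rcases F.eq_empty_or_nonempty with rfl | ⟨x0, hx0⟩
  · simpa using mul_nonneg (zero_le_one.trans (hG S)) (zero_le_one.trans (hG T))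
  have hrT : r ∉ T := fun h ↦ (hF x0 hx0).1.2.2.2.2.2 r h (hF x0 hx0).2.2
  have hmap : ∀ x ∈ F, x.2.factorization r ∈ Icc 1 N := by
    intro x hx
    obtain ⟨⟨h1, h2, -⟩, h3, h4⟩ := hF x hx
    refine mem_Icc.2 ⟨(hr.dvd_iff_one_le_factorization h2.ne').1 h4, ?_⟩
    have := Nat.factorization_lt r h2.ne'
    nlinarith
  rw [← sum_fiberwise_of_maps_to hmap]
  refine le_trans (sum_le_sum (g := fun e ↦ w r ^ e * (G S * G (insert r T))) fun e he ↦ ?_) ?_
  · have he1 : 0 < e := (mem_Icc.1 he).1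
    have hre : 0 < r ^ e := pow_pos hr.pos e
    have key : ∀ x ∈ F.filter fun x ↦ x.2.factorization r = e,
        x.2 = r ^ e * (x.2 / r ^ e) ∧ ¬ r ∣ x.2 / r ^ e := by
      intro x hx
      obtain ⟨hx, hxe⟩ := mem_filter.1 hx
      rw [← hxe]
      exact ⟨(Nat.ordProj_mul_ordCompl_eq_self _ _).symm,
        Nat.not_dvd_ordCompl hr (hF x hx).1.2.1.ne'⟩
    have hinj : Set.InjOn (fun x : ℕ × ℕ ↦ (x.1, x.2 / r ^ e))
        (F.filter fun x ↦ x.2.factorization r = e) := by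
      intro x hx y hy hxy
      simp only [Prod.mk.injEq] at hxy
      exact Prod.ext hxy.1 (by rw [(key x hx).1, (key y hy).1, hxy.2])
    have h1 := ih a (b * r ^ e) (c * (r ^ e + 1)) d S (insert r T)
      ((F.filter fun x ↦ x.2.factorization r = e).image fun x ↦ (x.1, x.2 / r ^ e)) ha
      (by positivity) (by nlinarith [mul_pos ha hc, Nat.mul_le_mul_right (r ^ e) h]) (by
        intro y hy
        obtain ⟨x, hx, rfl⟩ := mem_image.1 hy
        obtain ⟨k1, k2⟩ := key x hx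
        obtain ⟨⟨o1, o2, o3, o4, o5, o6⟩, o7, -⟩ := hF x (mem_filter.1 hx).1
        generalize x.2 / r ^ e = v at k1 k2
        have hv : 0 < v := Nat.pos_of_ne_zero fun h ↦ k2 (by simp [h])
        rw [k1] at o3 o4 o6 o7
        rw [usigma_pow_mul hr he1 k2] at o4
        refine ⟨⟨o1, hv, by rw [o3]; ring, by rw [← o4]; ring, o5, fun p hp ↦ ?_⟩, ?_⟩
        · rcases mem_insert.1 hp with rfl | hp
          · exact k2
          · exact fun h ↦ o6 p hp (h.mul_left _)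
        · have : 2 ≤ r ^ e := hr.two_le.trans (Nat.le_self_pow he1.ne' r)
          have h3 : 0 < x.1 * v := mul_pos o1 hv
          change x.1 * v < N
          nlinarith)
    rw [sum_image hinj] at h1
    refine le_trans (le_of_eq ?_) (mul_le_mul_of_nonneg_left h1 (pow_nonneg (hw0 r) e))
    rw [mul_sum]
    refine sum_congr rfl fun x hx ↦ ?_
    rw [← hpow, ← hw]
    congr 1
    conv_lhs => rw [(key x hx).1]
    ring
  · rw [← sum_mul, mul_left_comm]
    exact mul_le_mul_of_nonneg_left (hs r N T hr hrT) (zero_le_one.trans (hG S))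

theorem step' {N : ℕ} (ih : Bd w G N) {a b c d r : ℕ} {S T : Finset ℕ} {F : Finset (ℕ × ℕ)}
    (ha : 0 < a) (hc : 0 < c) (h : b * d ≤ 2 * (a * c)) (hr : r.Prime)
    (hF : ∀ x ∈ F, Ok a b c d S T x ∧ x.1 * x.2 < N + 1 ∧ r ∣ x.1) :
    ∑ x ∈ F, w (x.1 * x.2) ≤ G S * G T := by
  have := step hw hw1 hw0 hG hs ih (a := c) (b := d) (c := a) (d := b) (S := T) (T := S)
    (F := F.image Prod.swap) hc ha (by rwa [mul_comm d, mul_comm c]) hr (by
      intro y hy
      obtain ⟨x, hx, rfl⟩ := mem_image.1 hy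
      exact ⟨(hF x hx).1.swap, by simpa [mul_comm] using (hF x hx).2.1, (hF x hx).2.2⟩)
  rw [sum_image Prod.swap_injective.injOn, mul_comm] at this
  simpa [mul_comm] using this

theorem bd (N : ℕ) : Bd w G N := by
  induction N with
  | zero =>
    intro a b c d S T F _ _ _ hF
    rw [eq_empty_of_forall_notMem fun x hx ↦ Nat.not_lt_zero _ (hF x hx).2]
    simpa using mul_nonneg (zero_le_one.trans (hG S)) (zero_le_one.trans (hG T))
  | succ N ih =>
    intro a b c d S T F ha hc h hF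
    have hp : ∀ {a b : ℕ}, ¬ a ∣ b → ∃ r, r.Prime ∧ ∀ s v, a * s = b * v → r ∣ v := by
      intro a b hab
      rw [Nat.dvd_iff_prime_pow_dvd_dvd] at hab
      push Not at hab
      obtain ⟨r, k, hr, h1, h2⟩ := hab
      refine ⟨r, hr, fun s v e ↦ by_contra fun hv ↦ h2 ?_⟩
      exact (((Nat.Prime.coprime_iff_not_dvd hr).2 hv).pow_left k).dvd_of_dvd_mul_right
        (e ▸ h1.mul_right _)
    by_cases hab : a ∣ b
    · by_cases hcd : c ∣ d
      · obtain ⟨b, rfl⟩ := hab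
        obtain ⟨d, rfl⟩ := hcd
        have hbd : b * d < 2 := by
          by_contra hh
          nlinarith [mul_pos ha hc, Nat.mul_le_mul_left (a * c) (not_lt.1 hh)]
        have hsub : F ⊆ {(1, 1)} := by
          intro x hx
          obtain ⟨⟨o1, o2, o3, o4, -⟩, -⟩ := hF x hx
          rw [mul_assoc] at o3 o4
          have e1 := Nat.eq_of_mul_eq_mul_left ha o3
          have e2 := Nat.eq_of_mul_eq_mul_left hc o4
          have l1 := le_usigma o1
          have l2 := le_usigma o2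
          have hb : 0 < b := Nat.pos_of_ne_zero fun h ↦ by rw [h] at e1; omega
          have hd : 0 < d := Nat.pos_of_ne_zero fun h ↦ by rw [h] at e2; omega
          have hb1 : b = 1 := by nlinarith
          have hd1 : d = 1 := by nlinarith
          rw [hb1] at e1
          rw [hd1] at e2
          have x1 : ¬ 1 < x.1 := fun h ↦ by have := lt_usigma h; omega
          exact mem_singleton.2 (Prod.ext (by simp only; omega) (by simp only; omega))
        refine (sum_le_sum_of_subset_of_nonneg hsub fun _ _ _ ↦ hw0 _).trans ?_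
        simpa [hw1] using one_le_mul_of_one_le_of_one_le (hG S) (hG T)
      · obtain ⟨r, hr, hv⟩ := hp hcd
        exact step' hw hw1 hw0 hG hs ih ha hc h.le hr fun x hx ↦
          ⟨(hF x hx).1, (hF x hx).2, hv _ _ (hF x hx).1.2.2.2.1⟩
    · obtain ⟨r, hr, hv⟩ := hp hab
      exact step hw hw1 hw0 hG hs ih ha hc h.le hr fun x hx ↦
        ⟨(hF x hx).1, (hF x hx).2, hv _ _ (hF x hx).1.2.2.1⟩

/-- weighted count of unitary superperfect numbers -/
theorem weighted (A : Finset ℕ) (hA : ∀ n ∈ A, 0 < n ∧ usigma (usigma n) = 2 * n) :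
    ∑ n ∈ A, w (n * usigma n) ≤ 2 * G ∅ ^ 2 := by
  obtain ⟨N, hN⟩ := (A.image fun n ↦ n * usigma n).exists_le
  have hinj : Function.Injective fun n ↦ (n, usigma n) := fun _ _ h ↦ congrArg Prod.fst h
  have hok : ∀ n ∈ A, Ok 1 1 1 2 ∅ ∅ (n, usigma n) ∧ n * usigma n < N + 1 := fun n hn ↦
    ⟨⟨(hA n hn).1, (hA n hn).1.trans_le (le_usigma (hA n hn).1), rfl,
      by simpa using (hA n hn).2, by simp, by simp⟩,
      Nat.lt_succ_of_le (hN _ (mem_image_of_mem _ hn))⟩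
  have h1 := step' hw hw1 hw0 hG hs (bd hw hw1 hw0 hG hs N) (a := 1) (b := 1) (c := 1) (d := 2)
    (S := ∅) (T := ∅) (F := (A.filter fun n ↦ 2 ∣ n).image fun n ↦ (n, usigma n)) one_pos one_pos
    le_rfl Nat.prime_two (by
      intro y hy
      obtain ⟨n, hn, rfl⟩ := mem_image.1 hy
      obtain ⟨hn, h2⟩ := mem_filter.1 hn
      exact ⟨(hok n hn).1, (hok n hn).2, h2⟩)
  have h2 := step hw hw1 hw0 hG hs (bd hw hw1 hw0 hG hs N) (a := 1) (b := 1) (c := 1) (d := 2)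
    (S := ∅) (T := ∅) (F := (A.filter fun n ↦ ¬ 2 ∣ n).image fun n ↦ (n, usigma n)) one_pos one_pos
    le_rfl Nat.prime_two (by
      intro y hy
      obtain ⟨n, hn, rfl⟩ := mem_image.1 hy
      obtain ⟨hn, h2⟩ := mem_filter.1 hn
      refine ⟨(hok n hn).1, (hok n hn).2, two_dvd_usigma ?_ h2⟩
      obtain ⟨h3, h4⟩ := hA n hn
      by_contra h5
      obtain rfl : n = 1 := by omega
      revert h4
      decide)
  rw [sum_image hinj.injOn] at h1 h2
  rw [← sum_filter_add_sum_filter_not A fun n ↦ 2 ∣ n]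
  simp only at h1 h2
  linarith

end

end Pool.Agent.Lib.MP_14338b_nt
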